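import Mathlib
import Pool.Agent.U37.LC.Pen

/-!
Project LC, job Link: the abstract part.
-/

set_option autoImplicit false

open MeasureTheory Filter Topology Complex
open scoped ComplexConjugate InnerProductSpace

namespace Pool.Agent.U492.LC

open Pool.Agent.U37.LC

theorem AA_form' {H Y : Type} [NormedAddCommGroup H] [InnerProductSpace ℂ H] [CompleteSpace H]
    [NormedAddCommGroup Y] [InnerProductSpace ℂ Y] [CompleteSpace Y]
    {S : H →L[ℂ] H} {W : Y →L[ℂ] H} {α : ℝ} (hS : ∀ x y, ⟪S x, y⟫_ℂ = ⟪x, S y⟫_ℂ) (z : ℂ)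
    (v w : H) : ⟪v, AA S W α z w⟫_ℂ =
    ⟪v, w⟫_ℂ - α * ⟪ContinuousLinearMap.adjoint W v, ContinuousLinearMap.adjoint W w⟫_ℂ -
      (z + 1) * ⟪S v, S w⟫_ℂ := by
  rw [AA_apply, inner_sub_right, inner_sub_right, inner_smul_right, inner_smul_right,
    ← ContinuousLinearMap.adjoint_inner_left, hS]

theorem link_abs {H0 H Y Sc : Type} [NormedAddCommGroup H0] [InnerProductSpace ℂ H0]
    [NormedAddCommGroup H] [InnerProductSpace ℂ H] [CompleteSpace H]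
    [NormedAddCommGroup Y] [InnerProductSpace ℂ Y] [CompleteSpace Y]
    {S : H →L[ℂ] H} {W : Y →L[ℂ] H} {T : H0 →L[ℂ] H} {c : ℝ} (hc : 0 < c)
    (hT : ∀ f h, ⟪f, h⟫_ℂ = c * ⟪T f, T h⟫_ℂ) (hS : ∀ x y, ⟪S x, y⟫_ℂ = ⟪x, S y⟫_ℂ)
    (V : Sc → H) (J : Sc → H0) (hJ : ∀ φ, S (V φ) = T (J φ)) (G K : Sc → Sc → ℂ)
    (D : Sc → Sc → Sc) (hD : ∀ φ ψ, V (D φ ψ) = V φ - V ψ)
    (hG : ∀ φ ψ, G φ ψ = c * (⟪V φ, V ψ⟫_ℂ - ⟪S (V φ), S (V ψ)⟫_ℂ))
    (hK : ∀ φ ψ, K φ ψ = c ^ 2 * ⟪ContinuousLinearMap.adjoint W (V φ),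
      ContinuousLinearMap.adjoint W (V ψ)⟫_ℂ)
    (hdense : ∀ v : H, ∀ ε : ℝ, 0 < ε → ∃ φ, ‖v - V φ‖ < ε) (α : ℝ) (u f : H0) :
    (∃ ψ : ℕ → Sc, Tendsto (fun n => J (ψ n)) atTop (𝓝 u) ∧
      Tendsto (fun p : ℕ × ℕ => G (D (ψ p.1) (ψ p.2)) (D (ψ p.1) (ψ p.2))) atTop (𝓝 0) ∧
      ∀ φ, Tendsto (fun n => G φ (ψ n) - α * K φ (ψ n)) atTop (𝓝 ⟪J φ, f⟫_ℂ)) ↔
    ∃ v : H, T u = S v ∧ AA S W (α * c) 0 v = S (T f) := by
  have hc' : (c : ℂ) ≠ 0 := by exact_mod_cast hc.ne'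
  have key : ∀ φ ψ, G φ ψ - α * K φ ψ = c * ⟪V φ, AA S W (α * c) 0 (V ψ)⟫_ℂ := by
    intro φ ψ
    rw [hG, hK, AA_form' hS]
    push_cast
    ring
  have hJf : ∀ φ, ⟪J φ, f⟫_ℂ = c * ⟪V φ, S (T f)⟫_ℂ := by
    intro φ
    rw [hT, ← hJ, hS]
  constructor
  · rintro ⟨ψ, h1, h2, h3⟩
    have hTJ : Tendsto (fun n => T (J (ψ n))) atTop (𝓝 (T u)) :=
      (T.continuous.tendsto u).comp h1
    have hcau : CauchySeq fun n => V (ψ n) := by
      rw [cauchySeq_iff_tendsto_dist_atTop_0]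
      have h4 : Tendsto (fun p : ℕ × ℕ => dist (T (J (ψ p.1))) (T (J (ψ p.2)))) atTop (𝓝 0) :=
        cauchySeq_iff_tendsto_dist_atTop_0.1 hTJ.cauchySeq
      have h5 : ∀ p : ℕ × ℕ, dist (V (ψ p.1)) (V (ψ p.2)) ^ 2 =
          (G (D (ψ p.1) (ψ p.2)) (D (ψ p.1) (ψ p.2))).re / c +
            dist (T (J (ψ p.1))) (T (J (ψ p.2))) ^ 2 := by
        intro p
        rw [hG, hD, map_sub, hJ, hJ, inner_self_eq_norm_sq_to_K, inner_self_eq_norm_sq_to_K,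
          dist_eq_norm, dist_eq_norm]
        have h6 : ((c : ℂ) * (((‖V (ψ p.1) - V (ψ p.2)‖ : ℝ) : ℂ) ^ 2 -
            ((‖T (J (ψ p.1)) - T (J (ψ p.2))‖ : ℝ) : ℂ) ^ 2)) =
            ((c * (‖V (ψ p.1) - V (ψ p.2)‖ ^ 2 - ‖T (J (ψ p.1)) - T (J (ψ p.2))‖ ^ 2) : ℝ) : ℂ) := by
          push_cast
          ring
        have h7 : (((c : ℂ) * (((‖V (ψ p.1) - V (ψ p.2)‖ : ℝ) : ℂ) ^ 2 -
            ((‖T (J (ψ p.1)) - T (J (ψ p.2))‖ : ℝ) : ℂ) ^ 2))).re =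
            c * (‖V (ψ p.1) - V (ψ p.2)‖ ^ 2 - ‖T (J (ψ p.1)) - T (J (ψ p.2))‖ ^ 2) := by
          rw [h6, Complex.ofReal_re]
        erw [h7]
        field_simp
        ring
      have h6 : Tendsto (fun p : ℕ × ℕ => dist (V (ψ p.1)) (V (ψ p.2)) ^ 2) atTop (𝓝 0) := by
        simp_rw [h5]
        have h7 : Tendsto (fun p : ℕ × ℕ =>
            (G (D (ψ p.1) (ψ p.2)) (D (ψ p.1) (ψ p.2))).re / c) atTop (𝓝 0) := by
          have h8 := ((Complex.continuous_re.tendsto 0).comp h2).div_const c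
          simpa using h8
        have h8 := h7.add (h4.pow 2)
        simpa using h8
      have h7 := h6.sqrt
      simpa [Real.sqrt_sq dist_nonneg] using h7
    obtain ⟨v, hv⟩ := cauchySeq_tendsto_of_complete hcau
    refine ⟨v, ?_, ?_⟩
    · have h4 : Tendsto (fun n => T (J (ψ n))) atTop (𝓝 (S v)) := by
        simp_rw [← hJ]
        exact (S.continuous.tendsto v).comp hv
      exact tendsto_nhds_unique hTJ h4
    · have h4 : ∀ φ, ⟪V φ, AA S W (α * c) 0 v - S (T f)⟫_ℂ = 0 := by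
        intro φ
        have h5 := h3 φ
        simp_rw [key] at h5
        have h6 : Tendsto (fun n => (c : ℂ) * ⟪V φ, AA S W (α * c) 0 (V (ψ n))⟫_ℂ) atTop
            (𝓝 (c * ⟪V φ, AA S W (α * c) 0 v⟫_ℂ)) := by
          refine Tendsto.const_mul _ ?_
          exact ((innerSL ℂ (V φ)).continuous.tendsto _).comp
            (((AA S W (α * c) 0).continuous.tendsto v).comp hv)
        have h7 := tendsto_nhds_unique h5 h6
        rw [hJf] at h7
        rw [inner_sub_right, sub_eq_zero]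
        exact (mul_left_cancel₀ hc' h7).symm
      have h5 : AA S W (α * c) 0 v - S (T f) = 0 := by
        generalize AA S W (α * c) 0 v - S (T f) = w at h4
        by_contra hne
        have hwp : 0 < ‖w‖ := norm_pos_iff.2 hne
        obtain ⟨φ, hφ⟩ := hdense w ‖w‖ hwp
        have h6 : ⟪w, w⟫_ℂ = ⟪w - V φ, w⟫_ℂ := by
          rw [inner_sub_left, h4 φ, sub_zero]
        have h7 : ‖w‖ * ‖w‖ ≤ ‖w - V φ‖ * ‖w‖ := by
          have h8 := norm_inner_le_norm (𝕜 := ℂ) (w - V φ) w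
          rw [← h6, inner_self_eq_norm_sq_to_K] at h8
          rw [norm_pow] at h8
          have h9 : ‖((‖w‖ : ℝ) : ℂ)‖ = ‖w‖ := by simp
          erw [h9] at h8
          nlinarith
        nlinarith
      exact sub_eq_zero.1 h5
  · rintro ⟨v, h1, h2⟩
    choose ψ hψ using fun n : ℕ => hdense v (1 / ((n : ℝ) + 1)) (by positivity)
    have hv : Tendsto (fun n => V (ψ n)) atTop (𝓝 v) := by
      rw [tendsto_iff_norm_sub_tendsto_zero]
      refine squeeze_zero (fun _ => norm_nonneg _) (fun n => ?_)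
        tendsto_one_div_add_atTop_nhds_zero_nat
      rw [norm_sub_rev]
      exact (hψ n).le
    have hSV : Tendsto (fun n => S (V (ψ n))) atTop (𝓝 (S v)) := (S.continuous.tendsto v).comp hv
    refine ⟨ψ, ?_, ?_, ?_⟩
    · rw [tendsto_iff_norm_sub_tendsto_zero]
      have h3 : ∀ n, ‖J (ψ n) - u‖ ^ 2 = c * ‖S (V (ψ n)) - S v‖ ^ 2 := by
        intro n
        have h4 := hT (J (ψ n) - u) (J (ψ n) - u)
        rw [map_sub, h1, ← hJ, inner_self_eq_norm_sq_to_K, inner_self_eq_norm_sq_to_K] at h4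
        have h5 : (((‖J (ψ n) - u‖ ^ 2 : ℝ)) : ℂ) = ((c * ‖S (V (ψ n)) - S v‖ ^ 2 : ℝ) : ℂ) := by
          push_cast
          exact h4
        exact_mod_cast h5
      have h4 : Tendsto (fun n => ‖J (ψ n) - u‖ ^ 2) atTop (𝓝 0) := by
        simp_rw [h3]
        have h5 := ((tendsto_iff_norm_sub_tendsto_zero.1 hSV).pow 2).const_mul c
        simpa using h5
      have h5 := h4.sqrt
      simpa [Real.sqrt_sq (norm_nonneg _)] using h5
    · have h3 : Tendsto (fun p : ℕ × ℕ => V (ψ p.1) - V (ψ p.2)) atTop (𝓝 0) := by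
        have h4 := cauchySeq_iff_tendsto_dist_atTop_0.1 hv.cauchySeq
        rw [tendsto_zero_iff_norm_tendsto_zero]
        simpa [dist_eq_norm] using h4
      have h4 : Tendsto (fun p : ℕ × ℕ => (c : ℂ) * (⟪V (ψ p.1) - V (ψ p.2),
          V (ψ p.1) - V (ψ p.2)⟫_ℂ - ⟪S (V (ψ p.1) - V (ψ p.2)),
          S (V (ψ p.1) - V (ψ p.2))⟫_ℂ)) atTop (𝓝 (c * (⟪(0 : H), (0 : H)⟫_ℂ -
            ⟪S (0 : H), S (0 : H)⟫_ℂ))) := by
        have h5 : Continuous fun w : H => (c : ℂ) * (⟪w, w⟫_ℂ - ⟪S w, S w⟫_ℂ) := by fun_prop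
        exact (h5.tendsto 0).comp h3
      simp only [hG, hD]
      simpa using h4
    · intro φ
      simp_rw [key, hJf, ← h2]
      refine Tendsto.const_mul _ ?_
      exact ((innerSL ℂ (V φ)).continuous.tendsto _).comp
        (((AA S W (α * c) 0).continuous.tendsto v).comp hv)

end Pool.Agent.U492.LC
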