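import Mathlib
import Pool.Agent.U37.LC.Stm3
import Pool.Agent.U492.LC.Abs

/-!
Project LC, job Link.
-/

set_option autoImplicit false

open MeasureTheory Filter Topology Complex
open scoped ComplexConjugate InnerProductSpace

namespace Pool.Agent.U492.LC

open Pool.Agent.U37.LC

theorem coord {γ : ℝ → E2} {L : ℝ} {l e : E2} (hB : JobBilip) (hγ : ContDiff ℝ 1 γ)
    (hunit : ∀ s, ‖deriv γ s‖ = 1) (hinj : Function.Injective γ) (hL : 0 < L) (hl : l ≠ 0)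
    (hper : ∀ s, γ (s + L) = γ s + l) (hel : ⟪e, l⟫_ℝ = 0)
    (hnorm : ∀ x : E2, ‖x‖ ^ 2 = (⟪x, l⟫_ℝ / ‖l‖) ^ 2 + ⟪x, e⟫_ℝ ^ 2) :
    Coord L (fun s => ⟪γ s, l⟫_ℝ / ‖l‖ ^ 2) (fun s => ⟪γ s, e⟫_ℝ) := by
  have hlp : 0 < ‖l‖ := norm_pos_iff.2 hl
  have hcont : Continuous γ := hγ.continuous
  refine ⟨hL, ?_, ?_, fun s => ?_, fun s => ?_, ?_⟩
  · exact (hcont.inner continuous_const).div_const _
  · exact hcont.inner continuous_const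
  · rw [hper, inner_add_left, real_inner_self_eq_norm_sq]
    field_simp
  · rw [hper, inner_add_left, real_inner_comm e l, hel, add_zero]
  · obtain ⟨c, hc, h⟩ := hB γ L l hγ hunit hinj hL hper
    refine ⟨c / (‖l‖ + 1), by positivity, fun s t => ?_⟩
    have h1 := h s t
    have h2 := hnorm (γ s - γ t)
    have h3 : ‖γ s - γ t‖ ≤ |⟪γ s - γ t, l⟫_ℝ / ‖l‖| + |⟪γ s - γ t, e⟫_ℝ| := by
      refine abs_le_of_sq_le_sq' ?_ (by positivity) |>.2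
      rw [h2, ← sq_abs (⟪γ s - γ t, l⟫_ℝ / ‖l‖), ← sq_abs ⟪γ s - γ t, e⟫_ℝ]
      nlinarith [mul_nonneg (abs_nonneg (⟪γ s - γ t, l⟫_ℝ / ‖l‖)) (abs_nonneg ⟪γ s - γ t, e⟫_ℝ)]
    have h4 : |⟪γ s - γ t, l⟫_ℝ / ‖l‖| = ‖l‖ * |⟪γ s, l⟫_ℝ / ‖l‖ ^ 2 - ⟪γ t, l⟫_ℝ / ‖l‖ ^ 2| := by
      rw [inner_sub_left, ← sub_div, abs_div, abs_div, abs_of_pos hlp,
        abs_of_pos (pow_pos hlp 2)]
      field_simp
    have h5 : ⟪γ s - γ t, e⟫_ℝ = ⟪γ s, e⟫_ℝ - ⟪γ t, e⟫_ℝ := inner_sub_left _ _ _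
    rw [h4, h5] at h3
    rw [div_mul_eq_mul_div, div_le_iff₀ (by positivity)]
    have h6 := abs_nonneg (⟪γ s, l⟫_ℝ / ‖l‖ ^ 2 - ⟪γ t, l⟫_ℝ / ‖l‖ ^ 2)
    have h7 := abs_nonneg (⟪γ s, e⟫_ℝ - ⟪γ t, e⟫_ℝ)
    nlinarith [mul_nonneg hlp.le h7]

theorem om_nonneg (θ : ℝ) (q : ℝ × ℝ) : 0 ≤ om θ q := by
  unfold om
  positivity

theorem sqrt_om_le (θ : ℝ) (q : ℝ × ℝ) : Real.sqrt (1 + om θ q) ≤
    (1 + θ ^ 2 + 4 * Real.pi ^ 2) * ((1 + q.1 ^ 2) * (1 + q.2 ^ 2)) := by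
  rw [Real.sqrt_le_iff]
  refine ⟨by positivity, ?_⟩
  have h1 : 1 + om θ q ≤ (1 + θ ^ 2 + 4 * Real.pi ^ 2) * ((1 + q.1 ^ 2) * (1 + q.2 ^ 2)) := by
    unfold om
    have a1 : 0 ≤ q.1 ^ 2 := sq_nonneg _
    have a2 : 0 ≤ q.2 ^ 2 := sq_nonneg _
    have a3 : 0 ≤ θ ^ 2 := sq_nonneg _
    have a4 : 0 ≤ 4 * Real.pi ^ 2 := by positivity
    nlinarith [mul_nonneg a1 a2, mul_nonneg a3 a1, mul_nonneg a3 a2, mul_nonneg a4 a1,
      mul_nonneg a4 a2, mul_nonneg a3 (mul_nonneg a1 a2), mul_nonneg a4 (mul_nonneg a1 a2)]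
  have h2 : 1 ≤ (1 + θ ^ 2 + 4 * Real.pi ^ 2) * ((1 + q.1 ^ 2) * (1 + q.2 ^ 2)) :=
    le_trans (by linarith [om_nonneg θ q]) h1
  nlinarith

theorem memLp_dom : MemLp (fun q : ℝ × ℝ => (1 + q.1 ^ 2)⁻¹ * (1 + q.2 ^ 2)⁻¹) 2
    (volume : Measure (ℝ × ℝ)) := by
  have hcont : Continuous fun q : ℝ × ℝ => (1 + q.1 ^ 2)⁻¹ * (1 + q.2 ^ 2)⁻¹ := by
    refine Continuous.mul (Continuous.inv₀ (by fun_prop) fun q => ?_)
      (Continuous.inv₀ (by fun_prop) fun q => ?_) <;> positivity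
  have hint : Integrable (fun q : ℝ × ℝ => (1 + q.1 ^ 2)⁻¹ * (1 + q.2 ^ 2)⁻¹)
      (volume : Measure (ℝ × ℝ)) :=
    integrable_inv_one_add_sq.mul_prod integrable_inv_one_add_sq
  rw [memLp_two_iff_integrable_sq hcont.aestronglyMeasurable]
  refine Integrable.mono' hint (hcont.pow 2).aestronglyMeasurable
    (Eventually.of_forall fun q => ?_)
  have h1 : 0 ≤ (1 + q.1 ^ 2)⁻¹ * (1 + q.2 ^ 2)⁻¹ := by positivity
  have h2 : (1 + q.1 ^ 2)⁻¹ * (1 + q.2 ^ 2)⁻¹ ≤ 1 := by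
    rw [← mul_inv]
    refine inv_le_one_of_one_le₀ ?_
    nlinarith [sq_nonneg q.1, sq_nonneg q.2, mul_nonneg (sq_nonneg q.1) (sq_nonneg q.2)]
  rw [Real.norm_eq_abs, abs_of_nonneg (by positivity)]
  nlinarith

theorem memLp_V {θ C : ℝ} {g : ℝ × ℝ → ℂ} (hg : Continuous g)
    (hb : ∀ q : ℝ × ℝ, ‖g q‖ ≤ C / ((1 + q.1 ^ 2) ^ 2 * (1 + q.2 ^ 2) ^ 2)) :
    MemLp (fun q => ((Real.sqrt (1 + om θ q) : ℝ) : ℂ) * g q) 2 (volume : Measure (ℝ × ℝ)) := by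
  refine MemLp.mono' (memLp_dom.const_mul ((1 + θ ^ 2 + 4 * Real.pi ^ 2) * C)) ?_
    (Eventually.of_forall fun q => ?_)
  · have : Continuous fun q : ℝ × ℝ => ((Real.sqrt (1 + om θ q) : ℝ) : ℂ) * g q := by
      unfold om
      fun_prop
    exact this.aestronglyMeasurable
  · rw [norm_mul, Complex.norm_real, Real.norm_eq_abs, abs_of_nonneg (Real.sqrt_nonneg _)]
    refine (mul_le_mul (sqrt_om_le θ q) (hb q) (norm_nonneg _) (by positivity)).trans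
      (le_of_eq ?_)
    have h1 : (1 + q.1 ^ 2) ≠ 0 := by positivity
    have h2 : (1 + q.2 ^ 2) ≠ 0 := by positivity
    field_simp

theorem rpow_mul_sqrt (θ : ℝ) (q : ℝ × ℝ) :
    (1 + om θ q) ^ (-(1 / 2) : ℝ) * Real.sqrt (1 + om θ q) = 1 := by
  have h : 0 < 1 + om θ q := by linarith [om_nonneg θ q]
  rw [Real.sqrt_eq_rpow, ← Real.rpow_add h]
  norm_num

theorem S_symm {m : ℝ × ℝ → ℝ} {S : HH →L[ℂ] HH} (hS : IsMul (fun q => ((m q : ℝ) : ℂ)) S)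
    (x y : HH) : ⟪S x, y⟫_ℂ = ⟪x, S y⟫_ℂ := by
  rw [inner_L2, inner_L2]
  refine integral_congr_ae ?_
  filter_upwards [hS x, hS y] with q h1 h2
  rw [h1, h2, map_mul, Complex.conj_ofReal]
  ring

theorem jobLink (hB : JobBilip) (hF : JobFourier) (hC : JobCurve) : JobLink := by
  intro γ L l α hγ hunit hinj hL hl hper
  obtain ⟨c, e, T, g, hc, he, hel, hnorm, hTs, hTi, hTg, hgc, hgb, hinv, hgrad, hdense⟩ := hF l hl
  have hlp : 0 < ‖l‖ := norm_pos_iff.2 hl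
  have hcoord := coord hB hγ hunit hinj hL hl hper hel hnorm
  have hθ : 0 < 2 * Real.pi / ‖l‖ := by
    have := Real.pi_pos
    positivity
  refine ⟨fun s => ⟪γ s, l⟫_ℝ / ‖l‖ ^ 2, fun s => ⟪γ s, e⟫_ℝ, 2 * Real.pi / ‖l‖, c, T, hcoord, hθ,
    hc, hTs, hTi, ?_⟩
  intro W S hW hS u f
  generalize 2 * Real.pi / ‖l‖ = θ at hθ hW hS hgrad hdense
  have hmem : ∀ φ, MemLp (fun q => ((Real.sqrt (1 + om θ q) : ℝ) : ℂ) * g φ q) 2
      (volume : Measure (ℝ × ℝ)) := fun φ => by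
    obtain ⟨C, hb⟩ := hgb φ
    exact memLp_V (hgc φ) hb
  obtain ⟨V, hV⟩ : ∃ V : SchwartzMap E2 ℂ → HH, ∀ φ, (V φ : ℝ × ℝ → ℂ) =ᵐ[volume]
      fun q => ((Real.sqrt (1 + om θ q) : ℝ) : ℂ) * g φ q :=
    ⟨fun φ => (hmem φ).toLp _, fun φ => MemLp.coeFn_toLp _⟩
  have hSV : ∀ φ, S (V φ) = T (φ.toLp 2 volume) := by
    intro φ
    ext1
    filter_upwards [hS (V φ), hV φ, hTg φ] with q h1 h2 h3
    rw [h1, h2, h3, ← mul_assoc, ← Complex.ofReal_mul, rpow_mul_sqrt, Complex.ofReal_one, one_mul]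
  have hsub : ∀ φ ψ : SchwartzMap E2 ℂ, (φ - ψ).toLp 2 (volume : Measure E2) =
      φ.toLp 2 volume - ψ.toLp 2 volume := fun φ ψ => by
    exact MemLp.toLp_sub _ _
  have hD : ∀ φ ψ, V (φ - ψ) = V φ - V ψ := by
    intro φ ψ
    ext1
    have h0 : T ((φ - ψ).toLp 2 volume) = T (φ.toLp 2 volume) - T (ψ.toLp 2 volume) := by
      rw [hsub, map_sub]
    have h0' := hTg (φ - ψ)
    rw [h0] at h0'
    filter_upwards [hV (φ - ψ), hV φ, hV ψ, Lp.coeFn_sub (V φ) (V ψ), hTg φ, hTg ψ, h0',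
      Lp.coeFn_sub (T (φ.toLp 2 volume)) (T (ψ.toLp 2 volume))] with q h1 h2 h3 h4 h5 h6 h7 h8
    rw [h1, h4, Pi.sub_apply, h2, h3, ← h7, h8, Pi.sub_apply, h5, h6]
    ring
  have hG : ∀ φ ψ, gradForm φ ψ = c * (⟪V φ, V ψ⟫_ℂ - ⟪S (V φ), S (V ψ)⟫_ℂ) := by
    intro φ ψ
    rw [hgrad, hSV, hSV, inner_L2, inner_L2]
    have i1 : Integrable (fun q => conj ((V φ : ℝ × ℝ → ℂ) q) * (V ψ : ℝ × ℝ → ℂ) q)
        (volume : Measure (ℝ × ℝ)) := by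
      have := L2.integrable_inner (𝕜 := ℂ) (V φ) (V ψ)
      refine this.congr (Eventually.of_forall fun q => ?_)
      simp only [RCLike.inner_apply]
      rw [mul_comm]
    have i2 : Integrable (fun q => conj ((T (φ.toLp 2 volume) : ℝ × ℝ → ℂ) q) *
        (T (ψ.toLp 2 volume) : ℝ × ℝ → ℂ) q) (volume : Measure (ℝ × ℝ)) := by
      have := L2.integrable_inner (𝕜 := ℂ) (T (φ.toLp 2 volume)) (T (ψ.toLp 2 volume))
      refine this.congr (Eventually.of_forall fun q => ?_)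
      simp only [RCLike.inner_apply]
      rw [mul_comm]
    rw [← integral_sub i1 i2]
    congr 1
    refine integral_congr_ae ?_
    filter_upwards [hV φ, hV ψ, hTg φ, hTg ψ] with q h1 h2 h3 h4
    rw [h1, h2, h3, h4, map_mul, Complex.conj_ofReal]
    have h5 : ((Real.sqrt (1 + om θ q) : ℝ) : ℂ) * ((Real.sqrt (1 + om θ q) : ℝ) : ℂ) =
        1 + (om θ q : ℂ) := by
      rw [← Complex.ofReal_mul, Real.mul_self_sqrt (by linarith [om_nonneg θ q])]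
      push_cast
      rfl
    generalize ((Real.sqrt (1 + om θ q) : ℝ) : ℂ) = r at h5
    generalize (om θ q : ℂ) = o at h5
    generalize conj (g φ q) = a
    generalize g ψ q = b
    linear_combination (-(a * b)) * h5
  have hK : ∀ φ ψ : SchwartzMap E2 ℂ, ∫ s : ℝ, conj (φ (γ s)) * ψ (γ s) =
      (c : ℂ) ^ 2 * ⟪ContinuousLinearMap.adjoint W (V φ),
        ContinuousLinearMap.adjoint W (V ψ)⟫_ℂ := by
    intro φ ψ
    obtain ⟨C1, hb1⟩ := hgb φ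
    obtain ⟨C2, hb2⟩ := hgb ψ
    have h1 := hC L θ _ _ hcoord hθ W hW (g φ) (g ψ) (max C1 C2) (hgc φ) (hgc ψ)
      (fun q => (hb1 q).trans (by gcongr; exact le_max_left _ _))
      (fun q => (hb2 q).trans (by gcongr; exact le_max_right _ _)) (V φ) (V ψ) (hV φ) (hV ψ)
    rw [h1, ← integral_const_mul]
    refine integral_congr_ae (Eventually.of_forall fun s => ?_)
    simp only
    rw [hinv φ, hinv ψ, map_mul, Complex.conj_ofReal]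
    unfold ee
    ring
  have hdense' : ∀ v : HH, ∀ ε : ℝ, 0 < ε → ∃ φ, ‖v - V φ‖ < ε := by
    intro v ε hε
    obtain ⟨φ, w, hw, hvw⟩ := hdense v ε hε
    refine ⟨φ, ?_⟩
    have h1 : w = V φ := by
      ext1
      filter_upwards [hw, hV φ] with q h1 h2
      rw [h1, h2]
    rwa [h1] at hvw
  exact link_abs hc hTi (S_symm hS) V (fun φ => φ.toLp 2 volume) hSV gradForm
    (fun φ ψ => ∫ s : ℝ, conj (φ (γ s)) * ψ (γ s)) (fun φ ψ => φ - ψ) hD hG hK hdense' α u f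

end Pool.Agent.U492.LC
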